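import Mathlib
import Pool.Agent.KS6_16.VJ.Defs
import Pool.Graph.R_seed8.Helper259.HtExt

set_option autoImplicit false

/-!
# Invariance of place sums under extension of the field, number of places above a prime
-/

namespace Pool.Agent.KS6_82.VJ

open NumberField IsDedekindDomain MvPolynomial Module
open scoped NNReal

section

variable {K L : Type} [Field K] [NumberField K] [Field L] [NumberField L] [Algebra K L]

/-- sums over the infinite places -/
theorem sum_inf_ext (g : InfinitePlace K → ℝ) :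
    ∑ w : InfinitePlace L, (w.mult : ℝ) * g (w.comap (algebraMap K L)) =
      finrank K L * ∑ v : InfinitePlace K, (v.mult : ℝ) * g v := by
  have h := Pool.Agent.Helper259.HtExt.prod_inf_ext (L := L) (fun v : InfinitePlace K => Real.exp (g v))
  have h1 := congrArg Real.log h
  rw [Real.log_pow, Real.log_prod (fun w _ => pow_ne_zero _ (Real.exp_pos _).ne'),
    Real.log_prod (fun v _ => pow_ne_zero _ (Real.exp_pos _).ne')] at h1
  simp only [Real.log_pow, Real.log_exp] at h1
  exact h1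

theorem toNN_pow {N M : ℝ≥0} (hN : N ≠ 0) (hM : M ≠ 0) (f : ℕ) (hf : f ≠ 0) (h : M = N ^ f)
    (x : WithZero (Multiplicative ℤ)) :
    WithZeroMulInt.toNNReal hM x = WithZeroMulInt.toNNReal hN x ^ f := by
  subst h
  by_cases hx : x = 0
  · subst hx
    rw [map_zero, map_zero, zero_pow hf]
  · rw [WithZeroMulInt.toNNReal_neg_apply hM hx, WithZeroMulInt.toNNReal_neg_apply hN hx,
      ← zpow_natCast, ← zpow_natCast, ← zpow_mul, ← zpow_mul, mul_comm]

/-- the local degree -/
noncomputable def nn (v : HeightOneSpectrum (𝓞 K)) (w : HeightOneSpectrum (𝓞 L)) : ℕ :=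
  v.asIdeal.ramificationIdx' w.asIdeal * v.asIdeal.inertiaDeg' w.asIdeal

theorem inertia_ne (v : HeightOneSpectrum (𝓞 K)) (w : HeightOneSpectrum (𝓞 L))
    (hw : w.asIdeal.LiesOver v.asIdeal) : v.asIdeal.inertiaDeg' w.asIdeal ≠ 0 := by
  have : v.asIdeal.IsMaximal := v.isMaximal
  exact (Ideal.inertiaDeg'_pos v.asIdeal w.asIdeal).ne'

theorem nn_ne (v : HeightOneSpectrum (𝓞 K)) (w : HeightOneSpectrum (𝓞 L))
    (hw : w.asIdeal.LiesOver v.asIdeal) : nn v w ≠ 0 :=
  mul_ne_zero (Ideal.IsDedekindDomain.ramificationIdx'_ne_zero_of_liesOver w.asIdeal v.ne_bot)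
    (inertia_ne v w hw)

/-- local absolute values in an extension -/
theorem fin_ext (v : HeightOneSpectrum (𝓞 K)) (w : HeightOneSpectrum (𝓞 L))
    (hw : w.asIdeal.LiesOver v.asIdeal) (z : K) :
    FinitePlace.mk w (algebraMap K L z) = FinitePlace.mk v z ^ nn v w := by
  have h1 : Ideal.absNorm w.asIdeal = Ideal.absNorm v.asIdeal ^ v.asIdeal.inertiaDeg' w.asIdeal :=
    Ideal.absNorm_eq_pow_inertiaDeg'_of_liesOver w.asIdeal v.asIdeal v.isPrime v.ne_bot
  have h2 : ((Ideal.absNorm w.asIdeal : ℕ) : ℝ≥0) =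
      ((Ideal.absNorm v.asIdeal : ℕ) : ℝ≥0) ^ v.asIdeal.inertiaDeg' w.asIdeal := by
    rw [h1, Nat.cast_pow]
  rw [FinitePlace.mk_apply, FinitePlace.mk_apply, FinitePlace.norm_embedding',
    FinitePlace.norm_embedding', ← HeightOneSpectrum.valuation_liesOver L v w, map_pow,
    toNN_pow (NumberField.HeightOneSpectrum.absNorm_ne_zero v)
      (NumberField.HeightOneSpectrum.absNorm_ne_zero w) _ (inertia_ne v w hw) h2]
  unfold nn
  push_cast
  rw [← pow_mul, mul_comm]

/-- sum of the local degrees -/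
theorem sum_nn (v : HeightOneSpectrum (𝓞 K)) (W : Finset (HeightOneSpectrum (𝓞 L)))
    (hW : ∀ w, w ∈ W ↔ w.asIdeal.LiesOver v.asIdeal) : ∑ w ∈ W, nn v w = finrank K L := by
  classical
  have hmax : v.asIdeal.IsMaximal := v.isMaximal
  rw [← Ideal.sum_ramification_inertia (𝓞 L) K L (p := v.asIdeal) v.ne_bot]
  refine Finset.sum_bij (fun w _ => w.asIdeal) ?_ ?_ ?_ ?_
  · intro w hw
    exact (IsDedekindDomain.mem_primesOverFinset_iff v.ne_bot (𝓞 L)).2 ⟨w.isPrime, (hW w).1 hw⟩
  · intro w _ w' _ h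
    exact HeightOneSpectrum.ext h
  · intro P hP
    have hP' := (IsDedekindDomain.mem_primesOverFinset_iff v.ne_bot (𝓞 L)).1 hP
    have : P.LiesOver v.asIdeal := hP'.2
    refine ⟨⟨P, hP'.1, Ideal.ne_bot_of_liesOver_of_ne_bot v.ne_bot P⟩, (hW _).2 hP'.2, rfl⟩
  · intro w _
    rfl

theorem over_finite (v : HeightOneSpectrum (𝓞 K)) :
    {w : HeightOneSpectrum (𝓞 L) | w.asIdeal.LiesOver v.asIdeal}.Finite := by
  classical
  have hmax : v.asIdeal.IsMaximal := v.isMaximal
  refine Set.Finite.of_injOn (f := fun w : HeightOneSpectrum (𝓞 L) => w.asIdeal)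
    (t := (IsDedekindDomain.primesOverFinset v.asIdeal (𝓞 L) : Set (Ideal (𝓞 L)))) ?_ ?_
    (Finset.finite_toSet _)
  · intro w hw
    exact (IsDedekindDomain.mem_primesOverFinset_iff v.ne_bot (𝓞 L)).2 ⟨w.isPrime, hw⟩
  · intro w _ w' _ h
    exact HeightOneSpectrum.ext h

/-- sums over the maximal ideals in an extension -/
theorem sum_fin_ext (G : HeightOneSpectrum (𝓞 K) → ℝ) (hG : {v | G v ≠ 0}.Finite) :
    ∑ᶠ w : HeightOneSpectrum (𝓞 L),
      (nn (HeightOneSpectrum.under (𝓞 K) w) w : ℝ) * G (HeightOneSpectrum.under (𝓞 K) w) =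
      finrank K L * ∑ᶠ v, G v := by
  classical
  have hover : ∀ w : HeightOneSpectrum (𝓞 L),
      w.asIdeal.LiesOver (HeightOneSpectrum.under (𝓞 K) w).asIdeal := fun w => ⟨rfl⟩
  have hover' : ∀ (v : HeightOneSpectrum (𝓞 K)) (w : HeightOneSpectrum (𝓞 L)),
      HeightOneSpectrum.under (𝓞 K) w = v ↔ w.asIdeal.LiesOver v.asIdeal := by
    intro v w
    constructor
    · rintro rfl
      exact hover w
    · intro h
      exact HeightOneSpectrum.ext h.over.symm
  have hL : {w : HeightOneSpectrum (𝓞 L) | HeightOneSpectrum.under (𝓞 K) w ∈ hG.toFinset}.Finite := by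
    have : {w : HeightOneSpectrum (𝓞 L) | HeightOneSpectrum.under (𝓞 K) w ∈ hG.toFinset} ⊆
        ⋃ v ∈ hG.toFinset, {w : HeightOneSpectrum (𝓞 L) | w.asIdeal.LiesOver v.asIdeal} := by
      intro w hw
      exact Set.mem_biUnion hw (hover w)
    exact (Set.Finite.biUnion (Finset.finite_toSet _) fun v _ => over_finite v).subset this
  rw [finsum_eq_sum_of_support_subset (s := hL.toFinset), finsum_eq_sum_of_support_subset G
    (s := hG.toFinset)]
  · have hmaps : ∀ w ∈ hL.toFinset, HeightOneSpectrum.under (𝓞 K) w ∈ hG.toFinset := by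
      intro w hw
      simpa using hw
    rw [← Finset.sum_fiberwise_of_maps_to hmaps, Finset.mul_sum]
    refine Finset.sum_congr rfl fun v hv => ?_
    have hmem : ∀ w, w ∈ hL.toFinset.filter (fun w => HeightOneSpectrum.under (𝓞 K) w = v) ↔
        w.asIdeal.LiesOver v.asIdeal := by
      intro w
      rw [Finset.mem_filter, Set.Finite.mem_toFinset, ← hover' v w]
      constructor
      · exact fun h => h.2
      · intro h
        exact ⟨by rw [Set.mem_ofPred_eq, h]; exact hv, h⟩
    have h1 := sum_nn v _ hmem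
    rw [← h1, Nat.cast_sum, Finset.sum_mul]
    refine Finset.sum_congr rfl fun w hw => ?_
    rw [(Finset.mem_filter.mp hw).2]
  · intro v hv
    simpa using hv
  · intro w hw
    have hw' := right_ne_zero_of_mul (Function.mem_support.mp hw)
    simpa using hw'

theorem finsum_finitePlace (F : FinitePlace K → ℝ) :
    ∑ᶠ w : FinitePlace K, F w = ∑ᶠ v : HeightOneSpectrum (𝓞 K), F (FinitePlace.mk v) :=
  (finsum_comp_equiv (FinitePlace.equivHeightOneSpectrum (K := K)).symm (f := F)).symm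

end

theorem stINV : KS6_16.VJ.StINV := by
  intro L' L _ _ _ _ _ Φ hΦ hfin
  have hinf : ∑ w : InfinitePlace L, (w.mult : ℝ) * Φ (fun y => w (algebraMap L' L y)) =
      finrank L' L * ∑ v : InfinitePlace L', (v.mult : ℝ) * Φ (fun y => v y) :=
    sum_inf_ext (L := L) (fun v : InfinitePlace L' => Φ (fun y => v y))
  have hfinH : {v : HeightOneSpectrum (𝓞 L') | Φ (fun y => FinitePlace.mk v y) ≠ 0}.Finite := by
    have := hfin.preimage (f := fun v : HeightOneSpectrum (𝓞 L') => FinitePlace.mk v)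
      (fun v _ v' _ h => FinitePlace.mk_eq_iff.mp h)
    exact this
  have hloc : ∀ w : HeightOneSpectrum (𝓞 L),
      Φ (fun y => FinitePlace.mk w (algebraMap L' L y)) =
        (nn (HeightOneSpectrum.under (𝓞 L') w) w : ℝ) *
          Φ (fun y => FinitePlace.mk (HeightOneSpectrum.under (𝓞 L') w) y) := by
    intro w
    have h1 := hΦ (fun y => FinitePlace.mk (HeightOneSpectrum.under (𝓞 L') w) y)
      (fun y => apply_nonneg _ _) (nn (HeightOneSpectrum.under (𝓞 L') w) w)
      (Nat.pos_of_ne_zero (nn_ne _ _ ⟨rfl⟩))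
    rw [← h1]
    congr 1
    funext y
    exact fin_ext (HeightOneSpectrum.under (𝓞 L') w) w ⟨rfl⟩ y
  constructor
  · unfold KS6_16.VJ.placeSum
    rw [hinf, finsum_finitePlace, finsum_finitePlace, mul_add]
    congr 1
    rw [← sum_fin_ext (L := L) _ hfinH]
    exact finsum_congr hloc
  · intro T hT
    unfold KS6_16.VJ.placeSumS
    rw [hinf, finsum_mem_def, finsum_mem_def, finsum_finitePlace, finsum_finitePlace, mul_add]
    congr 1
    classical
    set G : HeightOneSpectrum (𝓞 L') → ℝ := fun v =>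
      Set.indicator {w : FinitePlace L' | ∃ p ∈ T, w ((p : ℕ) : L') < 1}
        (fun w => Φ (fun y => w y)) (FinitePlace.mk v) with hG
    have hGfin : {v | G v ≠ 0}.Finite := by
      refine hfinH.subset fun v hv => ?_
      intro h0
      apply hv
      simp only [hG]
      rw [Set.indicator_apply]
      split_ifs
      · exact h0
      · rfl
    rw [← sum_fin_ext (L := L) G hGfin]
    refine finsum_congr fun w => ?_
    simp only [hG, Set.indicator_apply]
    have hiff : (FinitePlace.mk w ∈ {w : FinitePlace L | ∃ p ∈ T, w ((p : ℕ) : L) < 1}) ↔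
        (FinitePlace.mk (HeightOneSpectrum.under (𝓞 L') w) ∈
          {w : FinitePlace L' | ∃ p ∈ T, w ((p : ℕ) : L') < 1}) := by
      simp only [Set.mem_ofPred_eq]
      refine exists_congr fun p => and_congr_right fun _ => ?_
      have h1 := fin_ext (HeightOneSpectrum.under (𝓞 L') w) w ⟨rfl⟩ ((p : ℕ) : L')
      rw [map_natCast] at h1
      rw [h1, pow_lt_one_iff_of_nonneg (apply_nonneg _ _) (nn_ne _ _ ⟨rfl⟩)]
    by_cases hw : FinitePlace.mk w ∈ {w : FinitePlace L | ∃ p ∈ T, w ((p : ℕ) : L) < 1}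
    · rw [if_pos hw, if_pos (hiff.mp hw)]
      exact hloc w
    · rw [if_neg hw, if_neg (fun h => hw (hiff.mpr h)), mul_zero]

theorem stN : KS6_16.VJ.StN := by
  intro L _ _ p hp
  classical
  have hpz : Prime (p : ℤ) := Nat.prime_iff_prime_int.mp hp
  have hp0 : Ideal.span {(p : ℤ)} ≠ ⊥ := by
    rw [Ne, Ideal.span_singleton_eq_bot]
    exact hpz.ne_zero
  have hprime : (Ideal.span {(p : ℤ)}).IsPrime := (Ideal.span_singleton_prime hpz.ne_zero).mpr hpz
  have hmax : (Ideal.span {(p : ℤ)}).IsMaximal := hprime.isMaximal hp0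
  have hmaps : Set.MapsTo (fun w : FinitePlace L => w.maximalIdeal.asIdeal)
      {w : FinitePlace L | w (p : L) < 1}
      (IsDedekindDomain.primesOverFinset (Ideal.span {(p : ℤ)}) (𝓞 L) : Set (Ideal (𝓞 L))) := by
    intro w hw
    refine (IsDedekindDomain.mem_primesOverFinset_iff hp0 (𝓞 L)).2 ⟨w.maximalIdeal.isPrime, ⟨?_⟩⟩
    have hw' : ((p : ℕ) : 𝓞 L) ∈ w.maximalIdeal.asIdeal := by
      rw [← FinitePlace.norm_lt_one_iff_mem (K := L), ← FinitePlace.mk_apply,
        FinitePlace.mk_maximalIdeal]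
      simpa using hw
    refine hmax.eq_of_le ?_ ?_
    · exact (Ideal.IsPrime.under ℤ w.maximalIdeal.asIdeal).ne_top
    · rw [Ideal.span_singleton_le_iff_mem, Ideal.under, Ideal.mem_comap]
      simpa using hw'
  have hinj : Set.InjOn (fun w : FinitePlace L => w.maximalIdeal.asIdeal)
      {w : FinitePlace L | w (p : L) < 1} := by
    intro w _ w' _ h
    exact FinitePlace.maximalIdeal_injective (HeightOneSpectrum.ext h)
  refine ⟨Set.Finite.of_injOn hmaps hinj (Finset.finite_toSet _), ?_⟩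
  have hcard := Set.ncard_le_ncard_of_injOn (fun w : FinitePlace L => w.maximalIdeal.asIdeal)
    hmaps hinj (Finset.finite_toSet _)
  rw [Set.ncard_coe_finset] at hcard
  refine hcard.trans ?_
  rw [← Ideal.sum_ramification_inertia (𝓞 L) ℚ L (p := Ideal.span {(p : ℤ)}) hp0,
    Finset.card_eq_sum_ones]
  refine Finset.sum_le_sum fun P hP => ?_
  have hP' := (IsDedekindDomain.mem_primesOverFinset_iff hp0 (𝓞 L)).1 hP
  have h1 : P.LiesOver (Ideal.span {(p : ℤ)}) := hP'.2
  have h2 : P.IsPrime := hP'.1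
  refine Nat.one_le_iff_ne_zero.mpr (mul_ne_zero ?_ ?_)
  · exact Ideal.IsDedekindDomain.ramificationIdx'_ne_zero_of_liesOver P hp0
  · exact (Ideal.inertiaDeg'_pos (Ideal.span {(p : ℤ)}) P).ne'

end Pool.Agent.KS6_82.VJ
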