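import Mathlib

/-!
# Tame different

`A ⊆ B` Dedekind domains, `B` finite over `A`, `p` a maximal ideal of `A` with residue field of
characteristic `0`, `P ^ e * Q = p B` with `P`, `Q` coprime, `P ≠ ⊤`, `e ≠ 0`: then `P ^ e` does not
divide the different.
-/

open Algebra

attribute [local instance] FractionRing.liftAlgebra FractionRing.isScalarTower_liftAlgebra
  Ideal.Quotient.field

namespace Pool.Agent.KS6_82.VJ

/-- general form: an ideal `P ≠ ⊤` with `P * Q = p B`, `P`, `Q` coprime, does not divide the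
different if the residue field of `p` has characteristic `0`. -/
theorem not_dvd_differentIdeal_of_charZero (A : Type*) {B : Type*} [CommRing A] [CommRing B]
    [Algebra A B] [IsDedekindDomain A] [IsDedekindDomain B] [Module.IsTorsionFree A B]
    [Module.Finite A B] [CharZero A]
    {p : Ideal A} [p.IsMaximal] [CharZero (A ⧸ p)] (P Q : Ideal B) (hPt : P ≠ ⊤)
    (hPQ : IsCoprime P Q) (hP : P * Q = Ideal.map (algebraMap A B) p) :
    ¬ P ∣ differentIdeal A B := by
  have : CharZero (FractionRing A) := charZero_of_injective_algebraMap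
    (IsFractionRing.injective A (FractionRing A))
  have : IsLocalization (algebraMapSubmonoid B (nonZeroDivisors A)) (FractionRing B) :=
    IsIntegralClosure.isLocalization _ (FractionRing A) _ _
  have : FiniteDimensional (FractionRing A) (FractionRing B) :=
    .of_isLocalization A B (nonZeroDivisors A)
  have : Algebra.IsSeparable (FractionRing A) (FractionRing B) := inferInstance
  let : Algebra (A ⧸ p) (B ⧸ Q) := Ideal.Quotient.algebraQuotientOfLEComap (by
      rw [← Ideal.map_le_iff_le_comap, ← hP]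
      exact Ideal.mul_le_right)
  let : Algebra (A ⧸ p) (B ⧸ P) := Ideal.Quotient.algebraQuotientOfLEComap (by
      rw [← Ideal.map_le_iff_le_comap, ← hP]
      exact Ideal.mul_le_left)
  have : IsScalarTower A (A ⧸ p) (B ⧸ Q) := .of_algebraMap_eq' rfl
  have : IsScalarTower A (A ⧸ p) (B ⧸ P) := .of_algebraMap_eq' rfl
  have : Module.Finite (A ⧸ p) (B ⧸ Q) :=
    Module.Finite.of_restrictScalars_finite A (A ⧸ p) (B ⧸ Q)
  have : Module.Finite (A ⧸ p) (B ⧸ P) :=
    Module.Finite.of_restrictScalars_finite A (A ⧸ p) (B ⧸ P)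
  let e : (B ⧸ p.map (algebraMap A B)) ≃ₐ[A ⧸ p] ((B ⧸ P) × B ⧸ Q) :=
    { __ := (Ideal.quotEquivOfEq hP.symm).trans (Ideal.quotientMulEquivQuotientProd P Q hPQ),
      commutes' := Quotient.ind fun _ ↦ rfl }
  have hnt : Nontrivial (B ⧸ P) := Ideal.Quotient.nontrivial_iff.mpr hPt
  obtain ⟨y, hy⟩ := Ideal.Quotient.mk_surjective (e.symm ((1 : B ⧸ P), 0))
  refine not_dvd_differentIdeal_of_intTrace_not_mem A P Q hP y ?_ ?_
  · have := congr((e $hy).2)
    simp at this
    simpa [e, Ideal.Quotient.eq_zero_iff_mem] using this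
  · rw [← Ideal.Quotient.eq_zero_iff_mem, ← Algebra.trace_quotient_eq_of_isDedekindDomain,
      hy, Algebra.trace_eq_of_algEquiv, Algebra.trace_prod_apply]
    have h1 : Algebra.trace (A ⧸ p) (B ⧸ P) 1 = Module.finrank (A ⧸ p) (B ⧸ P) := by
      have := Algebra.trace_algebraMap (R := A ⧸ p) (S := B ⧸ P) (1 : A ⧸ p)
      simpa using this
    simp only [h1, map_zero, add_zero, ne_eq, Nat.cast_eq_zero]
    exact (Module.finrank_pos (R := A ⧸ p) (M := B ⧸ P)).ne'

/-- tame different. -/
theorem tame_different (A : Type*) {B : Type*} [CommRing A] [CommRing B]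
    [Algebra A B] [IsDedekindDomain A] [IsDedekindDomain B] [Module.IsTorsionFree A B]
    [Module.Finite A B] [CharZero A]
    {p : Ideal A} [p.IsMaximal] [CharZero (A ⧸ p)] (P Q : Ideal B) [hPm : P.IsMaximal] {e : ℕ}
    (he : e ≠ 0) (hPQ : IsCoprime P Q) (hP : P ^ e * Q = Ideal.map (algebraMap A B) p) :
    ¬ P ^ e ∣ differentIdeal A B :=
  not_dvd_differentIdeal_of_charZero A (P ^ e) Q
    (fun h => hPm.ne_top (top_le_iff.mp (h ▸ Ideal.pow_le_self he)))
    (IsCoprime.pow_left hPQ) hP

/-- tame different, algebras over a field of characteristic `0`. -/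
theorem tame_different_field (k : Type*) (A : Type*) {B : Type*} [Field k] [CharZero k]
    [CommRing A] [CommRing B] [Algebra k A]
    [Algebra A B] [IsDedekindDomain A] [IsDedekindDomain B] [FaithfulSMul A B]
    [Module.Finite A B]
    {p : Ideal A} [hp : p.IsMaximal] (P Q : Ideal B) [hPm : P.IsMaximal] {e : ℕ}
    (he : e ≠ 0) (hPQ : IsCoprime P Q) (hP : P ^ e * Q = Ideal.map (algebraMap A B) p) :
    ¬ P ^ e ∣ differentIdeal A B := by
  have : CharZero A := charZero_of_injective_algebraMap (FaithfulSMul.algebraMap_injective k A)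
  have : Nontrivial (A ⧸ p) := Ideal.Quotient.nontrivial_iff.mpr hp.ne_top
  have : CharZero (A ⧸ p) :=
    charZero_of_injective_algebraMap (RingHom.injective (algebraMap k (A ⧸ p)))
  have : Module.IsTorsionFree A B := inferInstance
  exact tame_different A P Q he hPQ hP

/-- If `P ^ e ∣ p B` and not `P ^ (e+1) ∣ p B` then `P ^ e` does not divide the different. -/
theorem tame_different_field' (k : Type*) (A : Type*) {B : Type*} [Field k] [CharZero k]
    [CommRing A] [CommRing B] [Algebra k A]
    [Algebra A B] [IsDedekindDomain A] [IsDedekindDomain B] [FaithfulSMul A B]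
    [Module.Finite A B]
    {p : Ideal A} [hp : p.IsMaximal] (P : Ideal B) [hPm : P.IsMaximal] {e : ℕ}
    (he : e ≠ 0) (h1 : P ^ e ∣ Ideal.map (algebraMap A B) p)
    (h2 : ¬ P ^ (e + 1) ∣ Ideal.map (algebraMap A B) p) :
    ¬ P ^ e ∣ differentIdeal A B := by
  obtain ⟨Q, hQ⟩ := h1
  refine tame_different_field k A P Q he ?_ hQ.symm
  rw [Ideal.isCoprime_iff_sup_eq]
  by_contra hne
  have h3 : P = P ⊔ Q := hPm.eq_of_le hne le_sup_left
  have h4 : Q ≤ P := by rw [h3]; exact le_sup_right
  obtain ⟨R, hR⟩ := Ideal.dvd_iff_le.mpr h4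
  exact h2 ⟨R, by rw [hQ, hR, pow_succ, mul_assoc]⟩

end Pool.Agent.KS6_82.VJ
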